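import Pool.Agent.Helper69.LT.St
import Pool.Agent.Helper84.LE.BGR
import Pool.Agent.Helper84.LE.BWT
import Pool.Agent.Helper84.LE.BKP
import Pool.Agent.Helper84.LE.M_PolyExp
import Pool.Agent.Helper84.LE.M_Box
import Pool.Agent.Helper84.LE.M_Qw
import Pool.Agent.Helper84.LE.M_TauBasic
import Pool.Agent.Helper84.LE.M_TauSum
import Pool.Agent.Helper84.LE.M_TauDom
import Pool.Agent.Helper84.LE.M_SymT
import Pool.Agent.Helper84.LE.M_CoefLoc
import Pool.Agent.Helper84.LE.M_CoefLoc0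
import Pool.Agent.Helper84.LE.M_WalkBox
import Pool.Agent.Helper84.LE.M_Transl

/-! # Project LT, module EnvL: the environment on the lattice -/

set_option autoImplicit false

open scoped BigOperators ENNReal
open Pool.LE Pool.NL

namespace Pool.LT

namespace EnvLM

theorem tauBasic : StTauBasic :=
  LE.hTauBasic (LE.hTauSum (LE.hCoefLoc (LE.hCoefLoc0 (LE.hWalkBox LE.hBox)) LE.hTransl) LE.hBox
    (LE.hWalkBox LE.hBox)) LE.hSymT

theorem tauDom : StTauDom := LE.hTauDom LE.hTransl LE.hBox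

theorem ph (d : ℕ) (hd : 1 ≤ d) : 0 < pH d ∧ pH d ≤ 1 / 2 :=
  ⟨((LE.hPH LE.hPhi) d hd).1, ((LE.hPH LE.hPhi) d hd).2.1⟩

open Classical in
/-- the kernel restricted to a finite set -/
noncomputable def TL {d : ℕ} (L : Finset (Zd d)) (x y : Zd d) : ENNReal :=
  if x ∈ L ∧ y ∈ L then tauE d (pH d) (y - x) else if x = y then 1 else 0

theorem TL_le {d : ℕ} (hd : 1 ≤ d) (L : Finset (Zd d)) (x y : Zd d) :
    TL L x y ≤ tauE d (pH d) (y - x) := by
  have hp := ph d hd
  unfold TL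
  split_ifs with h h'
  · exact le_rfl
  · subst h'
    rw [sub_self, (tauBasic d (pH d) hp.1.le (by linarith [hp.2])).2.1]
  · exact zero_le

theorem TL_self {d : ℕ} (hd : 1 ≤ d) (L : Finset (Zd d)) (x : Zd d) : 1 ≤ TL L x x := by
  have hp := ph d hd
  unfold TL
  split_ifs with h h'
  · rw [sub_self, (tauBasic d (pH d) hp.1.le (by linarith [hp.2])).2.1]
  · exact le_rfl
  · exact absurd rfl h'

/-- a point outside `L` is isolated -/
theorem con_out {d : ℕ} {L : Finset (Zd d)} {ω : Finset (Sym2 (Zd d))}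
    (hL : ∀ e ∈ ω, ∀ v ∈ e, v ∈ L) {x y : Zd d} (hc : con ω x y) (hxy : x ≠ y) : x ∈ L := by
  obtain ⟨q⟩ := hc
  cases q with
  | nil => exact absurd rfl hxy
  | cons h q =>
    exact hL _ (gr_adj.1 h).1 x (Sym2.mem_mk_left _ _)

theorem Kd_symm {d : ℕ} (hd : 1 ≤ d) (x y : Zd d) : Kd d (pH d) x y = Kd d (pH d) y x := by
  have hp := ph d hd
  obtain ⟨-, -, hs, he, -⟩ := tauBasic d (pH d) hp.1.le (by linarith [hp.2])
  have h1 : Qw (x - y) = Qw (y - x) := by
    rw [← (LE.hQw d).2.2.1 (y - x), neg_sub]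
  have h2 : tau d (pH d) (x - y) = tau d (pH d) (y - x) := by
    have := hs 1 (fun _ => -1) (y - x)
    rw [← this]
    congr 1
    funext i
    simp [sgp]
  unfold Kd
  rw [← he (y - x), ← he (x - y), h1, h2]

theorem kp2_symm {V : Type} [DecidableEq V] {K : V → V → ENNReal} (h : ∀ x y, K x y = K y x)
    (x y : V) : kp K 2 x y = kp K 2 y x := by
  rw [LE.kp_two]
  unfold kc
  exact tsum_congr fun z => by rw [h x z, h z y, mul_comm]

end EnvLM

open EnvLM in
theorem hEnvL (h : SKpQ) : SEnvL := by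
  obtain ⟨C, hC, d₁, h1⟩ := h
  refine ⟨C, hC, max d₁ 1, le_max_right _ _, fun d hd L E k η hE hL hη hk => ?_⟩
  have hd1 : d₁ ≤ d := (le_max_left _ _).trans hd
  have hd0 : 1 ≤ d := (le_max_right _ _).trans hd
  obtain ⟨hp0, hp2⟩ := ph d hd0
  have hp1 : pH d ≤ 1 := by linarith
  obtain ⟨ht1, ht0, hts, hte, htr⟩ := tauBasic d (pH d) hp0.le hp1
  obtain ⟨hQ2, hQm, hQn, hQb⟩ := LE.hQw d
  obtain ⟨-, -, -, -, -, hbl, -, -, -, -, -, hbc, -⟩ := LE.hBox d
  have hQ0 : ∀ x : Zd d, 0 ≤ Qw x := fun x => by linarith [hQ2 x]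
  have hqm : ∀ x y z : Zd d, ENNReal.ofReal (Qw (z - x)) ≤
      ENNReal.ofReal (Qw (y - x)) * ENNReal.ofReal (Qw (z - y)) := by
    intro x y z
    rw [← ENNReal.ofReal_mul (hQ0 _)]
    refine ENNReal.ofReal_le_ofReal ?_
    have := hQm (y - x) (z - y)
    rwa [show y - x + (z - y) = z - x by abel] at this
  have h64 : kp (kp (Kd d (pH d)) 2) 32 = kp (Kd d (pH d)) 64 := LE.kp_mul _ 2 32
  refine ⟨TL L, kp (Kd d (pH d)) 2, ?_⟩
  refine ⟨hp0.le, hp2, ?_, TL_self hd0 L, ?_, ?_, ?_, ?_, ?_, ?_⟩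
  · -- dom
    intro x y
    by_cases hxy : x ∈ L ∧ y ∈ L
    · have := tauDom d (pH d) E x y hp0.le hp1 hE
      unfold TL
      rw [if_pos hxy]
      exact this
    · by_cases hxe : x = y
      · subst hxe
        exact (LE.Pr_le_one hp0.le hp1 E _).trans (TL_self hd0 L x)
      · refine le_trans (le_of_eq ?_) (zero_le (a := TL L x y))
        unfold Pr
        refine Eq.trans (LE.ExE_congr (g := fun _ => (0 : ENNReal)) fun ω hω => ?_)
          (LE.ExE_const hp0.le hp1 E 0)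
        have hωL : ∀ e ∈ ω, ∀ v ∈ e, v ∈ L := fun e he v hv => hL e (hω he) v hv
        rw [if_neg]
        intro hc
        exact hxy ⟨con_out hωL hc hxe, con_out hωL (con_symm hc) (Ne.symm hxe)⟩
  · -- wk
    refine ⟨fun x y => ?_, hqm, fun x y => ?_, fun x => ?_, kp2_symm (Kd_symm hd0), fun x y => ?_⟩
    · rw [ENNReal.one_le_ofReal]
      linarith [hQ2 (y - x)]
    · rw [LE.kp_two]
      unfold kc
      rw [← ENNReal.tsum_mul_left]
      refine ENNReal.tsum_le_tsum fun z => ?_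
      unfold Kd
      calc ENNReal.ofReal (Qw (y - x)) * (TL L x z * TL L z y)
          ≤ (ENNReal.ofReal (Qw (z - x)) * ENNReal.ofReal (Qw (y - z))) *
            (tauE d (pH d) (z - x) * tauE d (pH d) (y - z)) :=
            mul_le_mul' (hqm x z y) (mul_le_mul' (TL_le hd0 L x z) (TL_le hd0 L z y))
        _ = _ := by ring
    · unfold kc
      calc (1 : ENNReal) = 1 * 1 := (one_mul 1).symm
        _ ≤ TL L x x * TL L x x := mul_le_mul' (TL_self hd0 L x) (TL_self hd0 L x)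
        _ ≤ ∑' z, TL L x z * TL L z x := ENNReal.le_tsum x
    · rw [h64]
      exact (h1 d hd1 x y).1
  · -- nbE
    intro u b hub
    exact (hbl u b).1 (hE (by exact_mod_cast hub))
  · intro u
    exact (hbc u).le
  · intro u b hb
    rw [hQb u b hb]
    norm_num
  · intro x y
    rw [h64]
    exact (h1 d hd1 x y).2
  · -- heta
    intro w
    by_cases hw : w ∈ L
    · calc ∑ y ∈ L, TL L w y * ENNReal.ofReal |k y|
          = ∑ y ∈ L, ENNReal.ofReal (tau d (pH d) (y - w) * |k y|) := by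
            refine Finset.sum_congr rfl fun y hy => ?_
            unfold TL
            rw [if_pos ⟨hw, hy⟩, ← hte (y - w), ENNReal.ofReal_mul (htr _).1]
        _ = ENNReal.ofReal (∑ y ∈ L, tau d (pH d) (y - w) * |k y|) :=
            (ENNReal.ofReal_sum_of_nonneg fun y _ => mul_nonneg (htr _).1 (abs_nonneg _)).symm
        _ ≤ ENNReal.ofReal η := ENNReal.ofReal_le_ofReal (hk w hw)
    · refine le_trans (le_of_eq ?_) (zero_le (a := ENNReal.ofReal η))
      refine Finset.sum_eq_zero fun y hy => ?_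
      unfold TL
      have h1 : ¬ (w ∈ L ∧ y ∈ L) := fun h => hw h.1
      have h2 : ¬ w = y := fun h => hw (h ▸ hy)
      rw [if_neg h1, if_neg h2, zero_mul]

end Pool.LT
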